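import Pool.Agent.Helper31.NB.Asm

/-!
# The pointwise conjecture for (virtually) nilpotent groups of affine maps of compact abelian groups

`X` is an ARBITRARY compact Hausdorff abelian group (connected or not, of any dimension and of any
weight) with its Haar probability measure `μ`, and `T_1, …, T_d` are affine bijections
`x ↦ α_i x · c_i` of `X` (`α_i` a continuous homomorphism, so `α_i` is an automorphism) which
generate a nilpotent group, or more generally a group with a nilpotent subgroup of finite index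
(equivalently, by Gromov's theorem, a group of polynomial growth). The maps need not commute, and
neither do their linear parts `α_i`; no ergodicity, hyperbolicity or unipotence is assumed. The
exponents are arbitrary polynomials in `k` variables with rational coefficients which map `ℤ ^ k`
to `ℤ`, and the averages are taken over the boxes `[1, M_1] × ⋯ × [1, M_k]`, `min M_i → ∞`. Since
the `T_i` may be repeated, all words in the maps with polynomial exponents are covered.
-/

set_option autoImplicit false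

open Filter Topology MeasureTheory
open scoped ENNReal

namespace Pool.Agent.Results.MP_f720ae_an.AffineActionsBoxes

/-- `p : ℤ ^ k → ℤ` is given by a polynomial with rational coefficients (for instance, by one with
integer coefficients). -/
def IsPolynomialMap {k : ℕ} (p : (Fin k → ℤ) → ℤ) : Prop :=
  ∃ P : MvPolynomial (Fin k) ℚ, ∀ m, ((p m : ℤ) : ℚ) = MvPolynomial.eval (fun l => (m l : ℚ)) P

/-- The map `T_1 ^ (p_1(m)) ⋯ T_d ^ (p_d(m))`. -/
def word {X : Type} {d k : ℕ} (T : Fin d → Equiv.Perm X) (p : Fin d → (Fin k → ℤ) → ℤ)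
    (m : Fin k → ℕ) : Equiv.Perm X :=
  (List.ofFn fun i : Fin d => T i ^ p i (fun l => (m l : ℤ))).prod

/-- `f` lies, almost everywhere, between continuous functions with arbitrarily close integrals
(for real `f`: `f` is Riemann integrable; continuous functions are an example, `u = f`, `K = 0`). -/
def RiemannIntegrable {X : Type} [TopologicalSpace X] [MeasurableSpace X] (μ : Measure X)
    (f : X → ℂ) : Prop :=
  ∀ ε : ℝ, 0 < ε → ∃ (u : X → ℂ) (K : X → ℝ), Continuous u ∧ Continuous K ∧
    (∀ᵐ x ∂μ, ‖f x - u x‖ ≤ K x) ∧ ∫ x, K x ∂μ ≤ ε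

/-- For every bounded measurable `G`, the box averages of the single function
`m ↦ G (T_1 ^ (p_1(m)) ⋯ T_d ^ (p_d(m)) x)` converge for almost every `x`. -/
def SingleAveragesConverge {X : Type} [MeasurableSpace X] {d k : ℕ} (μ : Measure X)
    (T : Fin d → Equiv.Perm X) (p : Fin d → (Fin k → ℤ) → ℤ) : Prop :=
  ∀ G : X → ℝ, Measurable G → (∃ C : ℝ, ∀ x, |G x| ≤ C) →
    ∀ᵐ x ∂μ, ∃ L : ℝ, Tendsto (fun M : Fin k → ℕ => (∏ j, (M j : ℝ))⁻¹ *
      ∑ m ∈ Fintype.piFinset (fun j => Finset.Icc 1 (M j)), G (word T p m x)) atTop (𝓝 L)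

/-- The maps `T_1 ^ (p_1(m)) ⋯ T_d ^ (p_d(m))` have the form `U_1 ^ (m_1) ⋯ U_k ^ (m_k) W` for some
measure preserving `U_1, …, U_k, W` (for instance when every `p_i` is affine linear in one
variable `m_l`, with `l` nondecreasing in `i` and the nonconstant exponents `p_i` have distinct
`l`). -/
def OrderedLinear {X : Type} [MeasurableSpace X] {d k : ℕ} (μ : Measure X)
    (T : Fin d → Equiv.Perm X) (p : Fin d → (Fin k → ℤ) → ℤ) : Prop :=
  ∃ (U : Fin k → Equiv.Perm X) (W : Equiv.Perm X),
    (∀ l, MeasurePreserving (U l) μ μ ∧ Measurable (U l).symm) ∧ MeasurePreserving W μ μ ∧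
    ∀ m : Fin k → ℕ, word T p m = (List.ofFn fun l => U l ^ m l).prod * W

/-- Let `X` be a compact Hausdorff abelian group with Haar probability `μ`, and let `T_1, …, T_d` be
affine bijections of `X` generating a virtually nilpotent group. Let `P_ij : ℤ ^ k → ℤ` be
arbitrary polynomial maps and `f_1, …, f_n ∈ L^∞(μ)`. Suppose that for each `j`

* `f_j` is Riemann integrable, for example continuous, or
* `X` is metrizable and `f_j` is continuous at almost every point, or
* `T_1 ^ (P_1j(m)) ⋯ T_d ^ (P_dj(m))` has the form `U_1 ^ (m_1) ⋯ U_k ^ (m_k) W`, or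
* the averages of single bounded functions along `T_1 ^ (P_1j(m)) ⋯ T_d ^ (P_dj(m))` converge a.e.

Then for almost every `x` the averages of `∏_j f_j (T_1 ^ (P_1j(m)) ⋯ T_d ^ (P_dj(m)) x)` over the
boxes `[1, M_1] × ⋯ × [1, M_k]` converge as `min M_i → ∞` (unrestricted boxes). -/
theorem result (d k n : ℕ) {X : Type} [CommGroup X] [TopologicalSpace X]
    [IsTopologicalGroup X] [CompactSpace X] [T2Space X] [MeasurableSpace X] [BorelSpace X]
    (μ : Measure X) [μ.IsHaarMeasure] [IsProbabilityMeasure μ]
    (T : Fin d → Equiv.Perm X)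
    (hT : ∀ i, ∃ (α : X →ₜ* X) (c : X), ∀ x, T i x = α x * c)
    (hnil : ∃ Λ : Subgroup ↥(Subgroup.closure (Set.range T)),
      Λ.FiniteIndex ∧ Group.IsNilpotent Λ)
    (P : Fin d → Fin n → (Fin k → ℤ) → ℤ) (hP : ∀ i j, IsPolynomialMap (P i j))
    (f : Fin n → X → ℂ) (hf : ∀ j, MemLp (f j) ∞ μ)
    (hslot : ∀ j, RiemannIntegrable μ (f j) ∨
      (TopologicalSpace.MetrizableSpace X ∧ ∀ᵐ x ∂μ, ContinuousAt (f j) x) ∨
      OrderedLinear μ T (fun i => P i j) ∨ SingleAveragesConverge μ T (fun i => P i j)) :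
    ∀ᵐ x ∂μ, ∃ L : ℂ, Tendsto
      (fun M : Fin k → ℕ => (∏ j, (M j : ℂ))⁻¹ *
        ∑ m ∈ Fintype.piFinset (fun j => Finset.Icc 1 (M j)),
          ∏ j : Fin n, f j (word T (fun i => P i j) m x))
      atTop (𝓝 L) :=
  Pool.Agent.Helper31.NB.box_top hT hnil hP hf hslot

end Pool.Agent.Results.MP_f720ae_an.AffineActionsBoxes
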