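import Pool.Agent.Helper34.GR.Main
import Pool.Agent.Helper34.FB.ForestFinal

/-!
# Almost everywhere convergent families are closed under grafting; rooted forests of maps

`Q_i(m)` and, for each `i`, `R_ij(m')` are families of measure preserving maps of a probability
space, with no relation between them. The grafted family consists of the `R_ij(m^(i)) Q_i(m)`, with
independent parameters `m` and `m^(i)`; all limits are over unrestricted boxes. The families of
the third part are obtained from the powers of single maps by repeated grafting: here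
`S_j(m) = T_j ^ (m_j) T_{p(j)} ^ (m_{p(j)}) ⋯` along the paths of a rooted forest, and nothing is
assumed about the group generated by `T_1, …, T_n`.
-/

set_option autoImplicit false

open MeasureTheory Filter Topology
open scoped ENNReal

universe u

noncomputable section

namespace Pool.Agent.Results.MP_f720ae_an.GraftedFamilies

/-- The average of `∏_i f_i (Q_i(m) x)` over `m` in the box `∏_l [1, M l]`. -/
def avg {X K I : Type*} [Fintype K] [DecidableEq K] [Fintype I] (Q : I → (K → ℕ) → X → X)
    (f : I → X → ℂ) (M : K → ℕ) (x : X) : ℂ :=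
  (∏ l, (M l : ℂ))⁻¹ * ∑ m ∈ Fintype.piFinset (fun l => Finset.Icc 1 (M l)), ∏ i, f i (Q i m x)

/-- For all `f_i` in `L^∞` and almost every `x` the averages of `∏_i f_i (Q_i(m) x)` over the boxes
`∏_l [1, M l]` converge as `min M l → ∞`. -/
def Convergent {X K I : Type*} [MeasurableSpace X] (μ : Measure X) [Fintype K] [DecidableEq K]
    [Fintype I] (Q : I → (K → ℕ) → X → X) : Prop :=
  ∀ f : I → X → ℂ, (∀ i, MemLp (f i) ∞ μ) →
    ∀ᵐ x ∂μ, ∃ ℓ : ℂ, Tendsto (fun M : K → ℕ => avg Q f M x) atTop (𝓝 ℓ)

/-- The grafted family: its members are `R_ij(m^(i)) Q_i(m)`, for `i` in `I` and `j` in `J_i`; the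
parameters are `m` (components `Sum.inl l`) and the `m^(i)` (components `Sum.inr ⟨i, l⟩`). -/
def graft {X K I : Type*} {J L : I → Type*} (Q : I → (K → ℕ) → X → X)
    (R : ∀ i, J i → (L i → ℕ) → X → X) :
    (Σ i, J i) → ((K ⊕ Σ i, L i) → ℕ) → X → X :=
  fun c m x => R c.1 c.2 (fun l => m (Sum.inr ⟨c.1, l⟩)) (Q c.1 (fun l => m (Sum.inl l)) x)

/-- The product `T_j ^ (m_j) T_{p(j)} ^ (m_{p(j)}) ⋯` along the path which starts at the node `j`
and follows the parents given by `p` (`p j = none` if `j` is a root), at most `t` factors. -/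
def path {X : Type u} {n : ℕ} (T : Fin n → Equiv.Perm X) (p : Fin n → Option (Fin n))
    (m : Fin n → ℕ) : ℕ → Fin n → Equiv.Perm X
  | 0, _ => 1
  | t + 1, j => T j ^ m j * (p j).elim 1 (path T p m t)

theorem path_eq {X : Type u} {n : ℕ} (T : Fin n → Equiv.Perm X) (p : Fin n → Option (Fin n))
    (m : Fin n → ℕ) : ∀ (t : ℕ) (j : Fin n),
      path T p m t j = Pool.Agent.Helper34.FB.path T p m t j := by
  intro t
  induction t with
  | zero => intro j; rfl
  | succ t ih =>
    intro j
    show T j ^ m j * (p j).elim 1 (path T p m t) =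
      T j ^ m j * (p j).elim 1 (Pool.Agent.Helper34.FB.path T p m t)
    rw [show path T p m t = Pool.Agent.Helper34.FB.path T p m t from funext ih]

/-- A. Let `Q_i(m)` (`i ∈ I`, `m ∈ ℕ^K`) and, for each `i`, `R_ij(m')` (`j ∈ J_i`, `m' ∈ ℕ^(L_i)`)
be measure preserving maps of a probability space.

1. If the averages of single functions along each `Q_i` converge almost everywhere, if `f_ij ∈ L^∞`
are such that for each `i` the averages of `∏_j f_ij (R_ij(m') x)` converge almost everywhere, to
`F_i`, and if the averages of `∏_i F_i (Q_i(m) x)` converge almost everywhere, to `g`, then the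
averages of `∏_(i,j) f_ij (R_ij(m^(i)) Q_i(m) x)` over all the parameters `m`, `m^(i)` converge
almost everywhere to `g`.
2. If the family `Q` and all the families `R_i` are convergent, then so is the grafted family.

B. Let `T_1, …, T_n` be invertible measure preserving maps of a probability space (they need not
commute), let `p` be the parent function of a rooted forest on the indices (`j < i` if `i` is the
parent of `j`), and let `f_1, …, f_n ∈ L^∞`. There are functions `g_1, …, g_n` such that `g_j` is
the conditional expectation of `f_j ∏_{i child of j} g_i` on the sets invariant under `T_j`, and for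
almost every `x` the averages of `∏_j f_j (S_j(m) x)`, `S_j(m) = path T p m n j`, over
`m ∈ [1, M_1] × ⋯ × [1, M_n]` converge to `∏_{r root} g_r(x)` as `min M_l → ∞`. -/
theorem result {X : Type u} [MeasurableSpace X] (μ : Measure X) [IsProbabilityMeasure μ] :
    (∀ {K I : Type} {J L : I → Type} [Fintype K] [DecidableEq K] [Fintype I] [DecidableEq I]
      [∀ i, Fintype (J i)] [∀ i, Fintype (L i)] [∀ i, DecidableEq (L i)]
      (Q : I → (K → ℕ) → X → X) (R : ∀ i, J i → (L i → ℕ) → X → X),
      (∀ i m, MeasurePreserving (Q i m) μ μ) → (∀ i j m, MeasurePreserving (R i j m) μ μ) →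
      ((∀ i, Convergent μ (fun _ : Unit => Q i)) →
        ∀ (f : (Σ i, J i) → X → ℂ) (F : I → X → ℂ) (g : X → ℂ), (∀ c, MemLp (f c) ∞ μ) →
          (∀ i, ∀ᵐ x ∂μ, Tendsto (fun M : L i → ℕ => avg (R i) (fun j => f ⟨i, j⟩) M x) atTop
            (𝓝 (F i x))) →
          (∀ᵐ x ∂μ, Tendsto (fun M : K → ℕ => avg Q F M x) atTop (𝓝 (g x))) →
          ∀ᵐ x ∂μ, Tendsto (fun M : (K ⊕ Σ i, L i) → ℕ => avg (graft Q R) f M x) atTop
            (𝓝 (g x))) ∧
      (Convergent μ Q → (∀ i, Convergent μ (R i)) → Convergent μ (graft Q R))) ∧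
    (∀ {n : ℕ} (T : Fin n → Equiv.Perm X), (∀ i, Measurable (T i).symm) →
      (∀ i, MeasurePreserving (T i) μ μ) → ∀ p : Fin n → Option (Fin n),
      (∀ j i, p j = some i → j < i) → ∀ f : Fin n → X → ℂ, (∀ j, MemLp (f j) ∞ μ) →
      ∃ g : Fin n → X → ℂ,
        (∀ j, g j =ᵐ[μ] μ[fun x => f j x * ∏ i ∈ Finset.univ.filter (fun i => p i = some j), g i x |
          MeasurableSpace.invariants (T j)]) ∧
        ∀ᵐ x ∂μ, Tendsto (fun M : Fin n → ℕ => (∏ l, (M l : ℂ))⁻¹ *
          ∑ m ∈ Fintype.piFinset (fun l => Finset.Icc 1 (M l)),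
            ∏ j, f j (path T p m n j x)) atTop
              (𝓝 (∏ r ∈ Finset.univ.filter (fun r => p r = none), g r x))) := by
  constructor
  · intro K I J L _ _ _ _ _ _ _ Q R hQ hR
    classical
    exact ⟨fun hQc f F g hf hF hg => Helper34.GR.graft_limit hQ hR hQc hf hF hg,
      fun hQc hRc => Helper34.GR.graft_convergent hQ hR hQc hRc⟩
  · intro n T hTm hT p hp f hf
    obtain ⟨g, h1, h2⟩ := Pool.Agent.Helper34.FB.forest_final hTm hT hp hf
    refine ⟨g, h1, ?_⟩
    simp only [path_eq]
    exact h2

end Pool.Agent.Results.MP_f720ae_an.GraftedFamilies
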