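import Pool.Agent.Helper34.FB.Final

/-!
# Commuting transformations, degree one: only the rational configuration matters

For commuting maps and polynomials of degree at most one the iterates of the question are
`T ^ (V_j m + b_j)`, where the `V_j` are integer `d × k` matrices. We show that almost everywhere
convergence (for all systems, all bounded functions, all translations `b_j`, and all boxes) is
invariant under rational changes of the parameters `m` and under rational changes of the acting
group `ℤ^d`.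
-/

set_option autoImplicit false

open Filter Topology MeasureTheory
open scoped ENNReal Matrix

universe u

namespace Pool.Agent.Results.MP_f720ae_an.RationalInvariance

/-- The map `T_1 ^ z_1 ⋯ T_d ^ z_d`. -/
def pw {d : ℕ} {X : Type*} (T : Fin d → Equiv.Perm X) (z : Fin d → ℤ) : Equiv.Perm X :=
  (List.ofFn fun i => T i ^ z i).prod

/-- The average over `m ∈ [1, M_1] × ⋯ × [1, M_k]` of
`∏_j f_j (T_1 ^ ((V_j m + b_j)_1) ⋯ T_d ^ ((V_j m + b_j)_d) x)`. -/
noncomputable def avg {d k n : ℕ} {X : Type*} (T : Fin d → Equiv.Perm X)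
    (V : Fin n → Matrix (Fin d) (Fin k) ℤ) (b : Fin n → Fin d → ℤ) (f : Fin n → X → ℂ)
    (M : Fin k → ℕ) (x : X) : ℂ :=
  (∏ l, (M l : ℂ))⁻¹ * ∑ m ∈ Fintype.piFinset (fun l => Finset.Icc 1 (M l)),
    ∏ j, f j (pw T (V j *ᵥ (fun l => ((m l : ℕ) : ℤ)) + b j) x)

/-- The family `V_1, …, V_n` is convergent: for every integer matrix `C` mapping `ℤ^k'` onto `ℤ^k`
(for instance the identity), every probability space, all commuting invertible measure preserving
`T_1, …, T_d`, all `b_j ∈ ℤ^d` and all `f_j ∈ L^∞`, the averages of the family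
`V_1 C, …, V_n C` converge for almost every `x` as `min M_l → ∞`. -/
def Convergent {d k n : ℕ} (V : Fin n → Matrix (Fin d) (Fin k) ℤ) : Prop :=
  ∀ (k' : ℕ) (C : Matrix (Fin k) (Fin k') ℤ), Function.Surjective C.mulVec →
    ∀ (X : Type u) [MeasurableSpace X] (μ : Measure X) [IsProbabilityMeasure μ]
      (T : Fin d → Equiv.Perm X), (∀ i, Measurable (T i).symm) →
      (∀ i, MeasurePreserving (T i) μ μ) → (∀ i j, Commute (T i) (T j)) →
      ∀ (b : Fin n → Fin d → ℤ) (f : Fin n → X → ℂ), (∀ j, MemLp (f j) ∞ μ) →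
        ∀ᵐ x ∂μ, ∃ L : ℂ,
          Tendsto (fun M : Fin k' → ℕ => avg T (fun j => V j * C) b f M x) atTop (𝓝 L)

theorem convergent_iff {d k n : ℕ} (V : Fin n → Matrix (Fin d) (Fin k) ℤ) :
    Convergent.{u} V ↔ Pool.Agent.Helper34.FB.Univ.{u} V := by
  constructor
  · intro h k' C hC X _ μ _ T hT b f hf
    exact h k' C hC X μ T hT.inverse hT.preserving hT.commute b f hf
  · intro h k' C hC X _ μ _ T h1 h2 h3 b f hf
    exact h k' C hC X μ T ⟨h1, h2, h3⟩ b f hf

/-- Let `V_1, …, V_n` be integer `d × k` matrices, `Θ` an integer `d' × d` matrix of rank `d` and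
`C` an integer `k × k'` matrix of rank `k` (its image has finite index in `ℤ^k`). Then
`V_1, …, V_n` is convergent if and only if `Θ V_1 C, …, Θ V_n C` is. -/
theorem result {d d' k k' n : ℕ} (V : Fin n → Matrix (Fin d) (Fin k) ℤ)
    (Θ : Matrix (Fin d') (Fin d) ℤ) (hΘ : Function.Injective Θ.mulVec)
    (C : Matrix (Fin k) (Fin k') ℤ)
    (hC : ∀ m : Fin k → ℤ, ∃ q : ℕ, 0 < q ∧ ∃ y, C *ᵥ y = (q : ℤ) • m) :
    Convergent.{u} V ↔ Convergent.{u} fun j => Θ * V j * C := by
  rw [convergent_iff, convergent_iff]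
  exact Pool.Agent.Helper34.FB.univ_rat V Θ hΘ C hC

end Pool.Agent.Results.MP_f720ae_an.RationalInvariance
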