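import Pool.Agent.Helper34.WM.Slots

/-!
# Degree one: simple directions, and slots with weakly mixing directions

`T_1, …, T_d` are arbitrary commuting invertible measure preserving maps of a probability space,
`V_1, …, V_n` integer `d × k` matrices, `S_j(m) = T_1 ^ ((V_j m + b_j)_1) ⋯ T_d ^ ((V_j m + b_j)_d)`.
A direction `v ∈ ℤ^k` is simple if the nonzero vectors among `V_1 v, …, V_n v` are all equal. There
are `s` further slots `S'_i(m) = U_i1 ^ ((A_i m + c_i)_1) ⋯ U_id' ^ ((A_i m + c_i)_d')`: for each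
`i` the maps `U_i1, …, U_id'` commute, and nothing else is assumed about them and the `T`'s.

If the simple directions span `ℚ^k` and if every further slot `i` is, for every other slot, weakly
mixing in some direction in which that other slot is constant, then the averages converge almost
everywhere over unrestricted boxes, for all bounded functions.
-/

set_option autoImplicit false

open Filter Topology MeasureTheory
open scoped ENNReal Matrix

namespace Pool.Agent.Results.MP_f720ae_an.SimpleAndMixingDirections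

/-- The map `T_1 ^ z_1 ⋯ T_d ^ z_d`. -/
def pw {d : ℕ} {X : Type} (T : Fin d → Equiv.Perm X) (z : Fin d → ℤ) : Equiv.Perm X :=
  (List.ofFn fun i => T i ^ z i).prod

/-- `v` is a simple direction: every `V_j v` is `0` or `a`, for one vector `a`. -/
def Simple {d k n : ℕ} (V : Fin n → Matrix (Fin d) (Fin k) ℤ) (v : Fin k → ℤ) : Prop :=
  ∃ a : Fin d → ℤ, ∀ j, V j *ᵥ v = 0 ∨ V j *ᵥ v = a

/-- `T` is weakly mixing: `T × T` is ergodic. -/
def WeaklyMixing {X : Type} [MeasurableSpace X] (μ : Measure X) (T : Equiv.Perm X) : Prop :=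
  Ergodic (Prod.map T T) (μ.prod μ)

/-- Suppose that every `m ∈ ℤ^k` has a positive multiple which is a sum of simple directions of
`V_1, …, V_n` (that is, the simple directions span `ℚ^k`; this holds if `n = 0`). Let
`T_1, …, T_d` be commuting invertible measure preserving maps and, for each `i = 1, …, s`, let
`U_i1, …, U_id'` be commuting invertible measure preserving maps of the same probability space.
Suppose that for each `i`

* for some `v ∈ ℤ^k` the map `U_i ^ (A_i v)` is weakly mixing;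
* for each `j` there is such a `v` with `V_j v = 0`;
* for each `i' ≠ i` there is such a `v` with `A_{i'} v = 0`.

Then for all `b_j`, `c_i`, all `f_j, g_i ∈ L^∞` and almost every `x` there is `L` such that, as
`min M_l → ∞` (unrestricted boxes), the averages of `∏_j f_j (T ^ (V_j m + b_j) x)` over the boxes
`[1, M_1] × ⋯ × [1, M_k]` converge to `L` and those of
`∏_j f_j (T ^ (V_j m + b_j) x) ∏_i g_i (U_i ^ (A_i m + c_i) x)` converge to `L ∏_i ∫ g_i`. -/
theorem result {d k n d' s : ℕ} (V : Fin n → Matrix (Fin d) (Fin k) ℤ)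
    (hV : ∀ m : Fin k → ℤ, ∃ q : ℕ, 0 < q ∧
      (q : ℤ) • m ∈ AddSubgroup.closure {v | Simple V v})
    (A : Fin s → Matrix (Fin d') (Fin k) ℤ)
    {X : Type} [MeasurableSpace X] (μ : Measure X) [IsProbabilityMeasure μ]
    (T : Fin d → Equiv.Perm X) (hTm : ∀ i, Measurable (T i).symm)
    (hT : ∀ i, MeasurePreserving (T i) μ μ) (hc : ∀ i j, Commute (T i) (T j))
    (U : Fin s → Fin d' → Equiv.Perm X) (hUm : ∀ i l, Measurable (U i l).symm)
    (hU : ∀ i l, MeasurePreserving (U i l) μ μ) (hUc : ∀ i l l', Commute (U i l) (U i l'))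
    (h1 : ∀ i, ∃ v : Fin k → ℤ, WeaklyMixing μ (pw (U i) (A i *ᵥ v)))
    (h2 : ∀ i j, ∃ v : Fin k → ℤ, V j *ᵥ v = 0 ∧ WeaklyMixing μ (pw (U i) (A i *ᵥ v)))
    (h3 : ∀ i i', i' ≠ i →
      ∃ v : Fin k → ℤ, A i' *ᵥ v = 0 ∧ WeaklyMixing μ (pw (U i) (A i *ᵥ v)))
    (b : Fin n → Fin d → ℤ) (c : Fin s → Fin d' → ℤ) (f : Fin n → X → ℂ)
    (hf : ∀ j, MemLp (f j) ∞ μ) (g : Fin s → X → ℂ) (hg : ∀ i, MemLp (g i) ∞ μ) :
    ∀ᵐ x ∂μ, ∃ L : ℂ,
      Tendsto (fun M : Fin k → ℕ => (∏ l, (M l : ℂ))⁻¹ *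
        ∑ m ∈ Fintype.piFinset (fun l => Finset.Icc 1 (M l)),
          ∏ j, f j (pw T (V j *ᵥ (fun l => ((m l : ℕ) : ℤ)) + b j) x)) atTop (𝓝 L) ∧
      Tendsto (fun M : Fin k → ℕ => (∏ l, (M l : ℂ))⁻¹ *
        ∑ m ∈ Fintype.piFinset (fun l => Finset.Icc 1 (M l)),
          (∏ j, f j (pw T (V j *ᵥ (fun l => ((m l : ℕ) : ℤ)) + b j) x)) *
            ∏ i, g i (pw (U i) (A i *ᵥ (fun l => ((m l : ℕ) : ℤ)) + c i) x)) atTop
        (𝓝 ((∏ i, ∫ y, g i y ∂μ) * L)) :=
  Pool.Agent.Helper34.WM.simple_slots hTm hT hc V b hV hUm hU hUc A c h1 h2 h3 hf hg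

end Pool.Agent.Results.MP_f720ae_an.SimpleAndMixingDirections
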